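import Pool.Agent.H559.NT.Stm

set_option autoImplicit false

/-!
# Project NT, the statement EQ: limits along ultrafilters
-/

open Set Filter Topology Metric
open scoped Manifold

namespace Pool.Agent.Y405.NT

open Pool.Agent.H559.NT

universe u v

theorem eq (hD : S_DISC.{u, v}) : S_EQ.{u, v} := by
  intro E _ _ _ X _ _ _ _ _ hN l U C hU hC F hF
  classical
  -- the limit
  have hG : ∀ x : X, ∃ y : X, x ∈ U → y ∈ C ∧ Tendsto (fun m => F m x) (l : Filter ℕ) (𝓝 y) := by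
    intro x
    by_cases hx : x ∈ U
    · have h1 : (l.map (fun m => F m x) : Filter X) ≤ 𝓟 C := by
        rw [le_principal_iff]
        exact hF.mono fun m hm => hm.2 hx
      obtain ⟨y, hy, h2⟩ := hC.ultrafilter_le_nhds _ h1
      exact ⟨y, fun _ => ⟨hy, h2⟩⟩
    · exact ⟨x, fun h => absurd h hx⟩
  choose G hG using hG
  refine ⟨G, fun x hx => (hG x hx).1, ?_⟩
  intro x hx O hO
  by_contra hcon
  push Not at hcon
  let e := extChartAt 𝓘(ℂ, E) x
  have hxe : x ∈ e.source := mem_extChartAt_source x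
  -- a ball
  obtain ⟨R, hR, hball⟩ : ∃ R : ℝ, 0 < R ∧ ∀ z ∈ ball (e x) R, z ∈ e.target ∧ e.symm z ∈ U := by
    have h1 : e.target ∈ 𝓝 (e x) := extChartAt_target_mem_nhds x
    have h2 : e.symm ⁻¹' U ∈ 𝓝 (e x) := by
      have h3 : ContinuousAt e.symm (e x) := continuousAt_extChartAt_symm x
      apply h3.preimage_mem_nhds
      rw [e.left_inv hxe]
      exact hU.mem_nhds hx
    obtain ⟨R, hR, h4⟩ := Metric.mem_nhds_iff.mp (inter_mem h1 h2)
    exact ⟨R, hR, fun z hz => h4 hz⟩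
  -- a basis
  obtain ⟨B, hB⟩ := (𝓝 (G x)).exists_antitone_basis
  -- small neighbourhoods of `x`
  let W : ℕ → Set X := fun k => e.source ∩ e ⁻¹' ball (e x) (R / (2 * ((k : ℝ) + 1)))
  have hW : ∀ k, W k ∈ 𝓝 x := by
    intro k
    refine inter_mem (extChartAt_source_mem_nhds x) ?_
    exact (continuousAt_extChartAt x).preimage_mem_nhds (ball_mem_nhds _ (by positivity))
  have hk : ∀ k : ℕ, ∃ (m : ℕ) (x' : X), Hol E U (F m) ∧ MapsTo (F m) U C ∧ F m x ∈ B k ∧
      x' ∈ W k ∧ F m x' ∉ O := by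
    intro k
    have h1 : ∀ᶠ m in (l : Filter ℕ), ¬ MapsTo (F m) (W k) O := hcon (W k) (hW k)
    have h2 : ∀ᶠ m in (l : Filter ℕ), F m x ∈ B k :=
      (hG x hx).2 (hB.1.mem_of_mem trivial)
    obtain ⟨m, ⟨h3, h4⟩, h5, h6⟩ := (hF.and (h2.and h1)).exists
    unfold MapsTo at h6
    push Not at h6
    obtain ⟨x', h7, h8⟩ := h6
    exact ⟨m, x', h3, h4, h5, h7, h8⟩
  choose m x' k1 k2 k3 k4 k5 using hk
  -- the discs
  let w : ℕ → E := fun k => e (x' k) - e x
  let v : ℕ → E := fun k => ((k : ℂ) + 1) • w k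
  have hw : ∀ k, ‖w k‖ < R / (2 * ((k : ℝ) + 1)) := by
    intro k
    have := (k4 k).2
    rw [mem_preimage, mem_ball, dist_eq_norm] at this
    exact this
  have hv : ∀ k, ‖v k‖ < R := by
    intro k
    have h1 : ‖((k : ℂ) + 1)‖ = (k : ℝ) + 1 := by
      have : ((k : ℂ) + 1) = ((k + 1 : ℕ) : ℂ) := by push_cast; rfl
      rw [this, Complex.norm_natCast]
      push_cast
      rfl
    show ‖((k : ℂ) + 1) • w k‖ < R
    rw [norm_smul, h1]
    have h2 : (0 : ℝ) < (k : ℝ) + 1 := by positivity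
    calc ((k : ℝ) + 1) * ‖w k‖ ≤ ((k : ℝ) + 1) * (R / (2 * ((k : ℝ) + 1))) :=
          mul_le_mul_of_nonneg_left (hw k).le h2.le
      _ = R / 2 := by field_simp
      _ < R := by linarith
  let g : ℕ → ℂ → X := fun k s => F (m k) (e.symm (e x + s • v k))
  have hmaps : ∀ k, MapsTo (fun s : ℂ => e x + s • v k) (ball 0 1) (ball (e x) R) := by
    intro k s hs
    rw [mem_ball, dist_zero_right] at hs
    rw [mem_ball, dist_eq_norm, add_sub_cancel_left, norm_smul]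
    refine lt_of_le_of_lt ?_ (hv k)
    exact mul_le_of_le_one_left (norm_nonneg _) hs.le
  have hg1 : ∀ k, MDifferentiableOn 𝓘(ℂ, ℂ) 𝓘(ℂ, E) (g k) (ball 0 1) := by
    intro k
    have h1 : MDifferentiableOn 𝓘(ℂ, ℂ) 𝓘(ℂ, E) (fun s : ℂ => e x + s • v k) (ball 0 1) := by
      rw [mdifferentiableOn_iff_differentiableOn]
      fun_prop
    have h2 : MDifferentiableOn 𝓘(ℂ, E) 𝓘(ℂ, E) e.symm e.target :=
      mdifferentiableOn_extChartAt_symm
    have h3 : MDifferentiableOn 𝓘(ℂ, ℂ) 𝓘(ℂ, E) (e.symm ∘ fun s : ℂ => e x + s • v k)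
        (ball 0 1) := h2.comp h1 (fun s hs => (hball _ (hmaps k hs)).1)
    exact (k1 k).comp h3 (fun s hs => (hball _ (hmaps k hs)).2)
  have hg2 : ∀ k, MapsTo (g k) (ball 0 1) C := fun k s hs => k2 k (hball _ (hmaps k hs)).2
  have hg3 : Tendsto (fun k => g k 0) atTop (𝓝 (G x)) := by
    have h1 : ∀ k, g k 0 = F (m k) x := by
      intro k
      show F (m k) (e.symm (e x + (0 : ℂ) • v k)) = _
      rw [zero_smul, add_zero, e.left_inv hxe]
    refine hB.tendsto fun k => ?_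
    rw [h1]
    exact k3 k
  have hg4 : Tendsto (fun k : ℕ => 1 / ((k : ℂ) + 1)) atTop (𝓝 0) :=
    tendsto_one_div_add_atTop_nhds_zero_nat
  have hg5 := hD E X hN C hC g hg1 hg2 (G x) hg3 _ hg4
  have hg6 : ∀ᶠ k in atTop, g k (1 / ((k : ℂ) + 1)) ∈ O := hg5 hO
  obtain ⟨k, hk⟩ := hg6.exists
  apply k5 k
  have h1 : g k (1 / ((k : ℂ) + 1)) = F (m k) (x' k) := by
    show F (m k) (e.symm (e x + (1 / ((k : ℂ) + 1)) • (((k : ℂ) + 1) • w k))) = _
    rw [smul_smul, one_div, inv_mul_cancel₀ (Nat.cast_add_one_ne_zero k), one_smul]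
    show F (m k) (e.symm (e x + (e (x' k) - e x))) = _
    rw [add_sub_cancel, e.left_inv (k4 k).1]
  rw [← h1]
  exact hk

end Pool.Agent.Y405.NT
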